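import Pool.Agent.MQG.StmtsU

/-!
# Squad MQG, row DSN: adjoints and norms of direct sums
-/

set_option autoImplicit false

namespace Pool.Agent.MQG.H60

open Pool.Agent.MQG
open scoped InnerProductSpace InnerProduct

variable {P Y : Type} {X : P → Type}

/-- the inclusion of a part -/
noncomputable def inc (e : Y ≃ Σ p, X p) (p : P) : L2 (X p) →L[ℂ] L2 Y := (prt e p)†

theorem inner_inc (e : Y ≃ Σ p, X p) (p : P) (x : L2 (X p)) (ζ : L2 Y) :
    ⟪inc e p x, ζ⟫_ℂ = ⟪x, prt e p ζ⟫_ℂ := by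
  unfold inc
  exact ContinuousLinearMap.adjoint_inner_left (prt e p) ζ x

theorem prt_inc (e : Y ≃ Σ p, X p) (p : P) (x : L2 (X p)) : prt e p (inc e p x) = x := by
  classical
  ext x'
  have h1 : prt e p (inc e p x) x' = ⟪lp.single 2 (e.symm ⟨p, x'⟩) (1 : ℂ), inc e p x⟫_ℂ := by
    rw [lp.inner_single_left]
    simp
  have h2 : x x' = ⟪lp.single 2 x' (1 : ℂ), x⟫_ℂ := by
    rw [lp.inner_single_left]
    simp
  have h3 : prt e p (lp.single 2 (e.symm ⟨p, x'⟩) (1 : ℂ)) = lp.single 2 x' (1 : ℂ) := by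
    ext z
    rw [prt_apply, lp.single_apply, lp.single_apply]
    by_cases hz : z = x'
    · subst hz
      simp
    · rw [Pi.single_eq_of_ne hz, Pi.single_eq_of_ne]
      intro h
      exact hz (by simpa using h)
  rw [h1, h2, ← inner_conj_symm, inner_inc, h3, inner_conj_symm]

theorem prt_inc_ne (e : Y ≃ Σ p, X p) {p q : P} (hpq : q ≠ p) (x : L2 (X p)) :
    prt e q (inc e p x) = 0 := by
  classical
  ext x'
  have h1 : prt e q (inc e p x) x' = ⟪lp.single 2 (e.symm ⟨q, x'⟩) (1 : ℂ), inc e p x⟫_ℂ := by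
    rw [lp.inner_single_left]
    simp
  have h3 : prt e p (lp.single 2 (e.symm ⟨q, x'⟩) (1 : ℂ)) = 0 := by
    ext z
    rw [prt_apply, lp.single_apply, Pi.single_eq_of_ne]
    · rfl
    · intro h
      have h4 := e.symm.injective h
      exact hpq (congrArg Sigma.fst h4).symm
  rw [h1, ← inner_conj_symm, inner_inc, h3, inner_zero_right, map_zero]
  rfl

theorem ext_prt (e : Y ≃ Σ p, X p) {ζ η : L2 Y} (h : ∀ p, prt e p ζ = prt e p η) : ζ = η := by
  ext y
  have h1 := congrArg (fun v : L2 (X (e y).1) => v (e y).2) (h (e y).1)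
  simp only [prt_apply] at h1
  have h2 : e.symm ⟨(e y).1, (e y).2⟩ = y := e.symm_apply_apply y
  rw [h2] at h1
  exact h1

theorem norm_inc (e : Y ≃ Σ p, X p) (p : P) (x : L2 (X p)) : ‖inc e p x‖ = ‖x‖ := by
  have h : (‖inc e p x‖ : ℝ) ^ 2 = ‖x‖ ^ 2 := by
    have h1 : ⟪inc e p x, inc e p x⟫_ℂ = ⟪x, x⟫_ℂ := by rw [inner_inc, prt_inc]
    rw [inner_self_eq_norm_sq_to_K, inner_self_eq_norm_sq_to_K] at h1
    exact_mod_cast h1
  exact (pow_left_inj₀ (norm_nonneg _) (norm_nonneg _) two_ne_zero).1 h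

theorem ds_inc (e : Y ≃ Σ p, X p) {S : Op Y} {T : ∀ p, Op (X p)} (h : IsDS e S T) (p : P)
    (x : L2 (X p)) : S (inc e p x) = inc e p (T p x) := by
  refine ext_prt e fun q => ?_
  by_cases hq : q = p
  · subst hq
    rw [h, prt_inc, prt_inc]
  · rw [h, prt_inc_ne e hq, prt_inc_ne e hq, map_zero]

/-- row DSN -/
theorem dsn (hDsx : DsxStmt) (hDsa : DsaStmt) : DsnStmt := by
  intro P Y X e S T h
  refine ⟨?_, ?_, ?_⟩
  · intro p ζ
    refine ext_inner_left ℂ fun x => ?_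
    change ⟪x, prt e p ((star S) ζ)⟫_ℂ = ⟪x, (star (T p)) (prt e p ζ)⟫_ℂ
    rw [← inner_inc, ContinuousLinearMap.star_eq_adjoint, ContinuousLinearMap.star_eq_adjoint,
      ContinuousLinearMap.adjoint_inner_right, ds_inc e h, inner_inc,
      ContinuousLinearMap.adjoint_inner_right]
  · intro p
    refine ContinuousLinearMap.opNorm_le_bound _ (norm_nonneg _) fun x => ?_
    rw [← norm_inc e p (T p x), ← ds_inc e h, ← norm_inc e p x]
    exact S.le_opNorm _
  · intro C hC hT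
    obtain ⟨S', hS', hd⟩ := hDsx P Y X e T C hC hT
    have h1 := (hDsa P Y X e S S' T T h hd).2.2.2.2.2 (fun _ => rfl)
    rw [h1]
    exact hS'

end Pool.Agent.MQG.H60
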